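import Pool.Agent.Helper15.SI.P7
import Pool.Agent.Helper10.SQ.B1

/-! Project SI, leaf Q1: palindromes with given first digits and a very large square divisor. -/

set_option autoImplicit false

namespace Pool.Agent.Helper15.SI

open Finset Pool.Agent.Helper10 Pool.Agent.Helper10.SQ Pool.Agent.Helper10.P4

/-- the number of elements of one residue class -/
lemma q1_class (A : Finset ℕ) (N M : ℕ) (hMN : M ∣ N) (hA : ∀ r ∈ A, r < N)
    (hc : ∀ r ∈ A, ∀ r' ∈ A, r ≡ r' [MOD M]) : A.card ≤ N / M := by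
  have h0 : A.card ≤ (range (N / M)).card := by
    apply Finset.card_le_card_of_injOn (fun r => r / M)
    · intro r hr
      rw [Finset.mem_coe, Finset.mem_range]
      exact Nat.div_lt_div_of_lt_of_dvd hMN (hA r hr)
    · intro r hr r' hr' h
      have h1 : r % M = r' % M := hc r hr r' hr'
      have h2 : r / M = r' / M := h
      rw [← Nat.div_add_mod r M, ← Nat.div_add_mod r' M, h2, h1]
  rwa [Finset.card_range] at h0

lemma q1_drop (p : ℤ) (hp : Prime p) (k : ℕ) (u z : ℤ) (h : ¬ p ^ 2 ∣ u) (h' : p ^ k ∣ u * z) :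
    p ^ (k - 1) ∣ z := by
  rcases k with _ | j
  · simp
  · rw [Nat.add_sub_cancel]
    by_cases hu : p ∣ u
    · obtain ⟨v, hv⟩ := hu
      have hv' : ¬ p ∣ v := by
        rintro ⟨w, hw⟩
        exact h ⟨w, by rw [hv, hw]; ring⟩
      have h1 : p ^ j ∣ v * z := by
        rw [hv, pow_succ, mul_comm (p ^ j) p, mul_assoc] at h'
        exact (mul_dvd_mul_iff_left hp.ne_zero).1 h'
      exact hp.pow_dvd_of_dvd_mul_left j hv' h1
    · have h1 : p ^ (j + 1) ∣ z := hp.pow_dvd_of_dvd_mul_left (j + 1) hu h'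
      exact (pow_dvd_pow p (Nat.le_succ j)).trans h1

/-- two square roots -/
lemma q1_root (k u r r0 : ℕ) (hu4 : ¬ 4 ∣ u) (hu25 : ¬ 25 ∣ u) (hr : r.Coprime 10)
    (h : u * r ^ 2 ≡ u * r0 ^ 2 [MOD 10 ^ k]) :
    ((5 : ℤ) ^ (k - 1) ∣ (r : ℤ) - r0 ∨ (5 : ℤ) ^ (k - 1) ∣ (r : ℤ) + r0) ∧
      ((2 : ℤ) ^ (k - 2) ∣ (r : ℤ) - r0 ∨ (2 : ℤ) ^ (k - 2) ∣ (r : ℤ) + r0) := by
  have h1 : ((10 : ℤ) ^ k) ∣ (u : ℤ) * (((r : ℤ) - r0) * ((r : ℤ) + r0)) := by
    have h2 := (Int.natCast_modEq_iff.2 h).symm.dvd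
    push_cast at h2
    have h3 : (u : ℤ) * (((r : ℤ) - r0) * ((r : ℤ) + r0)) = u * (r : ℤ) ^ 2 - u * (r0 : ℤ) ^ 2 := by
      ring
    rw [h3]
    exact h2
  have hr5 : ¬ (5 : ℤ) ∣ (r : ℤ) := by
    intro h5
    have h5' : 5 ∣ r := by exact_mod_cast h5
    have := Nat.dvd_gcd h5' (by norm_num : 5 ∣ 10)
    rw [hr] at this
    omega
  have hr2 : ¬ (2 : ℤ) ∣ (r : ℤ) := by
    intro h5
    have h5' : 2 ∣ r := by exact_mod_cast h5
    have := Nat.dvd_gcd h5' (by norm_num : 2 ∣ 10)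
    rw [hr] at this
    omega
  have p5 : Prime (5 : ℤ) := by norm_num
  have p2 : Prime (2 : ℤ) := by norm_num
  have e5 : (5 : ℤ) ^ (k - 1) ∣ ((r : ℤ) - r0) * ((r : ℤ) + r0) := by
    apply q1_drop 5 p5 k (u : ℤ) _ _ ((pow_dvd_pow_of_dvd (by norm_num : (5 : ℤ) ∣ 10) k).trans h1)
    intro h5
    apply hu25
    norm_num at h5
    exact_mod_cast h5
  have e2 : (2 : ℤ) ^ (k - 1) ∣ ((r : ℤ) - r0) * ((r : ℤ) + r0) := by
    apply q1_drop 2 p2 k (u : ℤ) _ _ ((pow_dvd_pow_of_dvd (by norm_num : (2 : ℤ) ∣ 10) k).trans h1)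
    intro h5
    apply hu4
    norm_num at h5
    exact_mod_cast h5
  constructor
  · by_cases h5 : (5 : ℤ) ∣ (r : ℤ) - r0
    · left
      refine p5.pow_dvd_of_dvd_mul_right (k - 1) ?_ e5
      intro h6
      apply hr5
      omega
    · right
      exact p5.pow_dvd_of_dvd_mul_left (k - 1) h5 e5
  · by_cases h4 : (4 : ℤ) ∣ (r : ℤ) - r0
    · left
      have h6 : ¬ (2 : ℤ) ^ 2 ∣ (r : ℤ) + r0 := by
        intro h6
        norm_num at h6
        apply hr2
        omega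
      have := q1_drop 2 p2 (k - 1) _ _ h6 (by rw [mul_comm]; exact e2)
      rwa [Nat.sub_sub] at this
    · right
      have h6 : ¬ (2 : ℤ) ^ 2 ∣ (r : ℤ) - r0 := by
        intro h6
        norm_num at h6
        exact h4 h6
      have := q1_drop 2 p2 (k - 1) _ _ h6 e2
      rwa [Nat.sub_sub] at this

/-- the residues -/
def q1R (k c j u : ℕ) : Finset ℕ :=
  (range (10 ^ j)).filter (fun r => r.Coprime 10 ∧ ¬ 4 ∣ u ∧ ¬ 25 ∣ u ∧ u * r ^ 2 % 10 ^ k = c)

lemma q1_card (k c j u : ℕ) (hk : 1 ≤ k) (hkj : k ≤ j) : (q1R k c j u).card * 10 ^ k ≤ 80 * 10 ^ j := by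
  classical
  rcases (q1R k c j u).eq_empty_or_nonempty with h | ⟨r0, hr0⟩
  · rw [h]
    simp
  set M := 5 ^ (k - 1) * 2 ^ (k - 2) with hM
  have hMj : M ∣ 10 ^ j := by
    rw [show (10 : ℕ) = 5 * 2 by norm_num, mul_pow]
    exact mul_dvd_mul (pow_dvd_pow 5 (by omega)) (pow_dvd_pow 2 (by omega))
  have hM20 : 10 ^ k ≤ 20 * M := by
    rcases Nat.lt_or_ge k 2 with h | h
    · have : k = 1 := by omega
      subst this
      rw [hM]
      norm_num
    · obtain ⟨i, rfl⟩ : ∃ i, k = i + 2 := ⟨k - 2, by omega⟩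
      rw [hM, show i + 2 - 1 = i + 1 by omega, show i + 2 - 2 = i by omega,
        show (10 : ℕ) = 5 * 2 by norm_num, mul_pow]
      apply le_of_eq
      ring
  let A : ℤ → ℤ → Finset ℕ := fun s1 s2 => (q1R k c j u).filter (fun r =>
    (5 : ℤ) ^ (k - 1) ∣ (r : ℤ) - s1 * r0 ∧ (2 : ℤ) ^ (k - 2) ∣ (r : ℤ) - s2 * r0)
  have hA : ∀ s1 s2 : ℤ, (A s1 s2).card ≤ 10 ^ j / M := by
    intro s1 s2
    apply q1_class _ _ M hMj
    · intro r hr
      have := (Finset.mem_filter.1 hr).1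
      unfold q1R at this
      rw [Finset.mem_filter, Finset.mem_range] at this
      exact this.1
    · intro r hr r' hr'
      obtain ⟨-, a1, a2⟩ := Finset.mem_filter.1 hr
      obtain ⟨-, b1, b2⟩ := Finset.mem_filter.1 hr'
      apply Int.natCast_modEq_iff.1
      rw [Int.modEq_iff_dvd]
      have c1 : (5 : ℤ) ^ (k - 1) ∣ (r' : ℤ) - r := by
        have := dvd_sub b1 a1
        have e : (r' : ℤ) - s1 * r0 - ((r : ℤ) - s1 * r0) = r' - r := by ring
        rwa [e] at this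
      have c2 : (2 : ℤ) ^ (k - 2) ∣ (r' : ℤ) - r := by
        have := dvd_sub b2 a2
        have e : (r' : ℤ) - s2 * r0 - ((r : ℤ) - s2 * r0) = r' - r := by ring
        rwa [e] at this
      rw [hM]
      push_cast
      exact IsCoprime.mul_dvd (IsCoprime.pow (by norm_num)) c1 c2
  have hsub : q1R k c j u ⊆ (A 1 1 ∪ A 1 (-1)) ∪ (A (-1) 1 ∪ A (-1) (-1)) := by
    intro r hr
    have hr' := hr
    have hr0' := hr0
    unfold q1R at hr' hr0'
    rw [Finset.mem_filter] at hr' hr0'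
    obtain ⟨-, g1, g2, g3, g4⟩ := hr'
    obtain ⟨-, f1, f2, f3, f4⟩ := hr0'
    obtain ⟨m1, m2⟩ := q1_root k u r r0 g2 g3 g1 (by
      show u * r ^ 2 % 10 ^ k = u * r0 ^ 2 % 10 ^ k
      rw [g4, f4])
    simp only [A, Finset.mem_union, Finset.mem_filter]
    rcases m1 with m1 | m1 <;> rcases m2 with m2 | m2
    · exact Or.inl (Or.inl ⟨hr, by simpa using m1, by simpa using m2⟩)
    · exact Or.inl (Or.inr ⟨hr, by simpa using m1, by simpa using m2⟩)
    · exact Or.inr (Or.inl ⟨hr, by simpa using m1, by simpa using m2⟩)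
    · exact Or.inr (Or.inr ⟨hr, by simpa using m1, by simpa using m2⟩)
  have h4 : (q1R k c j u).card ≤ 4 * (10 ^ j / M) := by
    refine (Finset.card_le_card hsub).trans ?_
    refine (Finset.card_union_le _ _).trans ?_
    have u1 := Finset.card_union_le (A 1 1) (A 1 (-1))
    have u2 := Finset.card_union_le (A (-1) 1) (A (-1) (-1))
    have := hA 1 1
    have := hA 1 (-1)
    have := hA (-1) 1
    have := hA (-1) (-1)
    omega
  calc (q1R k c j u).card * 10 ^ k ≤ (4 * (10 ^ j / M)) * (20 * M) := Nat.mul_le_mul h4 hM20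
    _ = 80 * (10 ^ j / M * M) := by ring
    _ = 80 * 10 ^ j := by rw [Nat.div_mul_cancel hMj]

lemma q1_aux {n t u d d' j : ℕ} (hnt : 1 ≤ n + t) (hP : IsPalD (2 * n + 1) (u * d ^ 2))
    (hP' : IsPalD (2 * n + 1) (u * d' ^ 2)) (hd : d % 10 ^ j = d' % 10 ^ j) (hlt : d' < d)
    (hj : n + 2 ≤ 2 * j + t) (hjl : j ≤ 2 * n + 1) (ht : t ≤ n) (hhi : d < 10 ^ (n - t + 1)) :
    False := by
  have hle : 10 ^ (2 * n) ≤ u * d ^ 2 := B1_pow_le hP
  have hmod : (u * d ^ 2) % 10 ^ j = (u * d' ^ 2) % 10 ^ j := by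
    have h1 : d ≡ d' [MOD 10 ^ j] := hd
    exact (h1.pow 2).mul_left u
  have htop := B1_top_eq hP hP' hjl hmod
  have hsmall : u * d ^ 2 < u * d' ^ 2 + 10 ^ (2 * n + 1 - j) := by
    have a1 := Nat.div_add_mod (u * d ^ 2) (10 ^ (2 * n + 1 - j))
    have a2 := Nat.div_add_mod (u * d' ^ 2) (10 ^ (2 * n + 1 - j))
    have a3 := Nat.mod_lt (u * d ^ 2) (by positivity : 0 < 10 ^ (2 * n + 1 - j))
    rw [htop] at a1
    omega
  have hud : 10 ^ (n + t - 1) ≤ u * d := by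
    have b1 : 10 ^ (n + t - 1) * 10 ^ (n - t + 1) ≤ (u * d) * 10 ^ (n - t + 1) := by
      calc 10 ^ (n + t - 1) * 10 ^ (n - t + 1) = 10 ^ (2 * n) := by
            rw [← pow_add]; congr 1; omega
        _ ≤ u * d ^ 2 := hle
        _ = (u * d) * d := by ring
        _ ≤ (u * d) * 10 ^ (n - t + 1) := Nat.mul_le_mul_left _ hhi.le
    exact Nat.le_of_mul_le_mul_right b1 (by positivity)
  have hdd : d' + 10 ^ j ≤ d := by
    have c1 : 10 ^ j ∣ d - d' := (Nat.modEq_iff_dvd' hlt.le).1 hd.symm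
    have c2 := Nat.le_of_dvd (by omega) c1
    omega
  have hlarge : u * d' ^ 2 + 10 ^ (n + t - 1 + j) ≤ u * d ^ 2 := by
    have e1 : d' ^ 2 + 10 ^ j * d ≤ d ^ 2 := by
      have e0 : d' ^ 2 ≤ d' * d := by rw [sq]; exact Nat.mul_le_mul_left _ hlt.le
      calc d' ^ 2 + 10 ^ j * d ≤ d' * d + 10 ^ j * d := by omega
        _ = (d' + 10 ^ j) * d := by ring
        _ ≤ d * d := Nat.mul_le_mul_right _ hdd
        _ = d ^ 2 := by ring
    calc u * d' ^ 2 + 10 ^ (n + t - 1 + j) = u * d' ^ 2 + 10 ^ j * 10 ^ (n + t - 1) := by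
          rw [pow_add]; ring
      _ ≤ u * d' ^ 2 + 10 ^ j * (u * d) := by
          exact Nat.add_le_add_left (Nat.mul_le_mul_left _ hud) _
      _ = u * (d' ^ 2 + 10 ^ j * d) := by ring
      _ ≤ u * d ^ 2 := Nat.mul_le_mul_left _ e1
  have hpow : 10 ^ (2 * n + 1 - j) ≤ 10 ^ (n + t - 1 + j) :=
    Nat.pow_le_pow_right (by norm_num) (by omega)
  omega

open Classical in
lemma q1_fixed (n k w c t : ℕ) (hk1 : 1 ≤ k) (hk : 2 * k + t ≤ n)
    (hP : ∀ P ∈ PW n k w, P % 10 ^ k = c ∧ ¬ 4 ∣ P ∧ ¬ 25 ∣ P) :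
    ((PW n k w).filter (fun P => ∃ d : ℕ, 10 ^ (n - t) ≤ d ∧ d < 10 ^ (n - t + 1) ∧ d ^ 2 ∣ P)).card *
      10 ^ k ≤ 80 * 10 ^ (2 * t + 1 + ((n - t) / 2 + 2)) := by
  set j := (n - t) / 2 + 2 with hj
  have hex : ∀ P : ℕ, ∃ d : ℕ, (∃ d' : ℕ, 10 ^ (n - t) ≤ d' ∧ d' < 10 ^ (n - t + 1) ∧ d' ^ 2 ∣ P) →
      10 ^ (n - t) ≤ d ∧ d < 10 ^ (n - t + 1) ∧ d ^ 2 ∣ P := by
    intro P
    by_cases h : ∃ d' : ℕ, 10 ^ (n - t) ≤ d' ∧ d' < 10 ^ (n - t + 1) ∧ d' ^ 2 ∣ P
    · obtain ⟨d, hd⟩ := h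
      exact ⟨d, fun _ => hd⟩
    · exact ⟨0, fun h' => absurd h' h⟩
  choose dd hdd using hex
  have hPal : ∀ P ∈ PW n k w, P ∈ Pal n := fun P hP => (Finset.mem_filter.1 hP).1
  set B := (range (10 ^ (2 * t + 1))).biUnion (fun u => (q1R k c j u).image (fun r => (u, r))) with hB
  have h1 : ((PW n k w).filter
      (fun P => ∃ d : ℕ, 10 ^ (n - t) ≤ d ∧ d < 10 ^ (n - t + 1) ∧ d ^ 2 ∣ P)).card ≤ B.card := by
    apply Finset.card_le_card_of_injOn (fun P => (P / dd P ^ 2, dd P % 10 ^ j))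
    · intro P hPm
      rw [Finset.mem_coe, Finset.mem_filter] at hPm
      obtain ⟨hPW, hd⟩ := hPm
      obtain ⟨g1, g2, g3⟩ := hdd P hd
      obtain ⟨f1, f2, f3⟩ := hP P hPW
      have h3 : P < 10 ^ (2 * n + 1) := by
        have := hPal P hPW
        unfold Pal at this
        rw [Finset.mem_filter, Finset.mem_range] at this
        exact this.1
      have h4 : 10 ^ (2 * (n - t)) ≤ dd P ^ 2 := by
        calc 10 ^ (2 * (n - t)) = (10 ^ (n - t)) ^ 2 := by rw [← pow_mul, mul_comm]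
          _ ≤ dd P ^ 2 := Nat.pow_le_pow_left g1 2
      have h5 : 0 < dd P ^ 2 := lt_of_lt_of_le (by positivity) h4
      have h6 : P / dd P ^ 2 * dd P ^ 2 = P := Nat.div_mul_cancel g3
      have hu4 : ¬ 4 ∣ P / dd P ^ 2 := fun h => f2 (h.trans ⟨_, h6.symm⟩)
      have hu25 : ¬ 25 ∣ P / dd P ^ 2 := fun h => f3 (h.trans ⟨_, h6.symm⟩)
      have hd2 : ¬ 2 ∣ dd P := fun h => f2 ((by simpa using pow_dvd_pow_of_dvd h 2 : 4 ∣ dd P ^ 2).trans g3)
      have hd5 : ¬ 5 ∣ dd P := fun h => f3 ((by simpa using pow_dvd_pow_of_dvd h 2 : 25 ∣ dd P ^ 2).trans g3)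
      have hd10 : (dd P).Coprime 10 := by
        rw [show (10 : ℕ) = 2 * 5 by norm_num]
        apply Nat.Coprime.mul_right
        · exact ((Nat.Prime.coprime_iff_not_dvd Nat.prime_two).2 hd2).symm
        · exact ((Nat.Prime.coprime_iff_not_dvd Nat.prime_five).2 hd5).symm
      rw [Finset.mem_coe, hB, Finset.mem_biUnion]
      refine ⟨P / dd P ^ 2, ?_, ?_⟩
      · rw [Finset.mem_range, Nat.div_lt_iff_lt_mul h5]
        calc P < 10 ^ (2 * n + 1) := h3
          _ = 10 ^ (2 * t + 1) * 10 ^ (2 * (n - t)) := by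
              rw [← pow_add]; congr 1; omega
          _ ≤ 10 ^ (2 * t + 1) * dd P ^ 2 := Nat.mul_le_mul_left _ h4
      · rw [Finset.mem_image]
        refine ⟨dd P % 10 ^ j, ?_, rfl⟩
        unfold q1R
        rw [Finset.mem_filter, Finset.mem_range]
        refine ⟨Nat.mod_lt _ (by positivity), ?_, hu4, hu25, ?_⟩
        · have e1 : dd P % 10 ^ j ≡ dd P [MOD 10] :=
            (Nat.mod_modEq (dd P) (10 ^ j)).of_dvd (dvd_pow_self 10 (by omega))
          have e2 := e1.gcd_eq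
          unfold Nat.Coprime at hd10 ⊢
          rw [e2, hd10]
        · have e1 : dd P % 10 ^ j ≡ dd P [MOD 10 ^ k] :=
            (Nat.mod_modEq (dd P) (10 ^ j)).of_dvd (pow_dvd_pow 10 (by omega))
          have e2 : P / dd P ^ 2 * (dd P % 10 ^ j) ^ 2 ≡ P / dd P ^ 2 * dd P ^ 2 [MOD 10 ^ k] :=
            (e1.pow 2).mul_left _
          rw [h6] at e2
          rw [← f1]
          exact e2
    · intro P hPm P' hPm' heq
      rw [Finset.mem_coe, Finset.mem_filter] at hPm hPm'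
      obtain ⟨hPW, hd⟩ := hPm
      obtain ⟨hPW', hd'⟩ := hPm'
      obtain ⟨-, g2, g3⟩ := hdd P hd
      obtain ⟨-, g2', g3'⟩ := hdd P' hd'
      have q1 := hPal P hPW
      have q2 := hPal P' hPW'
      unfold Pal at q1 q2
      rw [Finset.mem_filter] at q1 q2
      simp only [Prod.mk.injEq] at heq
      obtain ⟨e1, e2⟩ := heq
      have f1 : P = P / dd P ^ 2 * dd P ^ 2 := (Nat.div_mul_cancel g3).symm
      have f2 : P' = P / dd P ^ 2 * dd P' ^ 2 := by
        rw [e1]; exact (Nat.div_mul_cancel g3').symm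
      rcases lt_trichotomy (dd P) (dd P') with hlt | heq | hgt
      · exfalso
        apply q1_aux (n := n) (t := t) (u := P / dd P ^ 2) (d := dd P') (d' := dd P) (j := j)
          (by omega) _ _ e2.symm hlt (by omega) (by omega) (by omega) g2'
        · rw [← f2]; exact q2.2
        · rw [← f1]; exact q1.2
      · rw [f1, f2, heq]
      · exfalso
        apply q1_aux (n := n) (t := t) (u := P / dd P ^ 2) (d := dd P) (d' := dd P') (j := j)
          (by omega) _ _ e2 hgt (by omega) (by omega) (by omega) g2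
        · rw [← f1]; exact q1.2
        · rw [← f2]; exact q2.2
  have h2 : B.card * 10 ^ k ≤ 10 ^ (2 * t + 1) * (80 * 10 ^ j) := by
    have h3 : B.card ≤ ∑ u ∈ range (10 ^ (2 * t + 1)), (q1R k c j u).card := by
      rw [hB]
      refine (Finset.card_biUnion_le).trans ?_
      exact Finset.sum_le_sum fun u _ => Finset.card_image_le
    calc B.card * 10 ^ k ≤ (∑ u ∈ range (10 ^ (2 * t + 1)), (q1R k c j u).card) * 10 ^ k :=
          Nat.mul_le_mul_right _ h3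
      _ = ∑ u ∈ range (10 ^ (2 * t + 1)), (q1R k c j u).card * 10 ^ k := by rw [Finset.sum_mul]
      _ ≤ ∑ u ∈ range (10 ^ (2 * t + 1)), 80 * 10 ^ j :=
          Finset.sum_le_sum fun u _ => q1_card k c j u hk1 (by omega)
      _ = 10 ^ (2 * t + 1) * (80 * 10 ^ j) := by
          rw [Finset.sum_const, Finset.card_range, smul_eq_mul]
  calc _ ≤ B.card * 10 ^ k := Nat.mul_le_mul_right _ h1
    _ ≤ 10 ^ (2 * t + 1) * (80 * 10 ^ j) := h2
    _ = 80 * 10 ^ (2 * t + 1 + j) := by rw [pow_add 10 (2 * t + 1) j]; ring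

open Classical in
/-- palindromes with given first digits and a very large square divisor -/
theorem sqB1q (n k w e c : ℕ) (he : e ≤ n) (hk1 : 1 ≤ k) (hk : 2 * k + e ≤ n)
    (hP : ∀ P ∈ PW n k w, P % 10 ^ k = c ∧ ¬ 4 ∣ P ∧ ¬ 25 ∣ P) :
    ((PW n k w).filter (fun P => ∃ d : ℕ, 10 ^ (n - e) ≤ d ∧ d ^ 2 ∣ P)).card * 10 ^ k ≤
      (e + 1) * 10 ^ ((n + 3 * e) / 2 + 5) := by
  have hsub : (PW n k w).filter (fun P => ∃ d : ℕ, 10 ^ (n - e) ≤ d ∧ d ^ 2 ∣ P) ⊆
      (range (e + 1)).biUnion (fun t => (PW n k w).filter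
        (fun P => ∃ d : ℕ, 10 ^ (n - t) ≤ d ∧ d < 10 ^ (n - t + 1) ∧ d ^ 2 ∣ P)) := by
    intro P hPm
    rw [Finset.mem_filter] at hPm
    obtain ⟨hPW, d, hd, hdP⟩ := hPm
    have hPal : P ∈ Pal n := (Finset.mem_filter.1 hPW).1
    unfold Pal at hPal
    rw [Finset.mem_filter, Finset.mem_range] at hPal
    have hP0 : 0 < P := lt_of_lt_of_le (by positivity) (B1_pow_le hPal.2)
    have hd0 : d ≠ 0 := by
      rintro rfl
      have : 0 < 10 ^ (n - e) := by positivity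
      omega
    have hdlt : d < 10 ^ (n + 1) := by
      by_contra hcon
      push Not at hcon
      have h1 : (10 ^ (n + 1)) ^ 2 ≤ d ^ 2 := Nat.pow_le_pow_left hcon 2
      have h2 : d ^ 2 ≤ P := Nat.le_of_dvd hP0 hdP
      have h3 : (10 ^ (n + 1)) ^ 2 = 10 ^ (2 * n + 2) := by rw [← pow_mul]; congr 1; ring
      have h4 : 10 ^ (2 * n + 1) ≤ 10 ^ (2 * n + 2) := Nat.pow_le_pow_right (by norm_num) (by omega)
      omega
    have hl1 : n - e ≤ Nat.log 10 d := Nat.le_log_of_pow_le (by norm_num) hd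
    have hl2 : Nat.log 10 d < n + 1 := Nat.log_lt_of_lt_pow hd0 hdlt
    rw [Finset.mem_biUnion]
    refine ⟨n - Nat.log 10 d, ?_, ?_⟩
    · rw [Finset.mem_range]
      omega
    · rw [Finset.mem_filter]
      refine ⟨hPW, d, ?_, ?_, hdP⟩
      · rw [show n - (n - Nat.log 10 d) = Nat.log 10 d by omega]
        exact Nat.pow_log_le_self 10 hd0
      · rw [show n - (n - Nat.log 10 d) = Nat.log 10 d by omega]
        exact Nat.lt_pow_succ_log_self (by norm_num) d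
  calc _ ≤ ((range (e + 1)).biUnion (fun t => (PW n k w).filter
        (fun P => ∃ d : ℕ, 10 ^ (n - t) ≤ d ∧ d < 10 ^ (n - t + 1) ∧ d ^ 2 ∣ P))).card * 10 ^ k :=
        Nat.mul_le_mul_right _ (Finset.card_le_card hsub)
    _ ≤ (∑ t ∈ range (e + 1), ((PW n k w).filter
        (fun P => ∃ d : ℕ, 10 ^ (n - t) ≤ d ∧ d < 10 ^ (n - t + 1) ∧ d ^ 2 ∣ P)).card) * 10 ^ k :=
        Nat.mul_le_mul_right _ Finset.card_biUnion_le
    _ = ∑ t ∈ range (e + 1), ((PW n k w).filter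
        (fun P => ∃ d : ℕ, 10 ^ (n - t) ≤ d ∧ d < 10 ^ (n - t + 1) ∧ d ^ 2 ∣ P)).card * 10 ^ k := by
        rw [Finset.sum_mul]
    _ ≤ ∑ t ∈ range (e + 1), 10 ^ ((n + 3 * e) / 2 + 5) := by
        apply Finset.sum_le_sum
        intro t ht
        rw [Finset.mem_range] at ht
        refine (q1_fixed n k w c t hk1 (by omega) hP).trans ?_
        calc 80 * 10 ^ (2 * t + 1 + ((n - t) / 2 + 2)) ≤
              10 ^ 2 * 10 ^ (2 * t + 1 + ((n - t) / 2 + 2)) := Nat.mul_le_mul_right _ (by norm_num)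
          _ = 10 ^ (2 + (2 * t + 1 + ((n - t) / 2 + 2))) := by rw [← pow_add]
          _ ≤ 10 ^ ((n + 3 * e) / 2 + 5) := Nat.pow_le_pow_right (by norm_num) (by omega)
    _ = (e + 1) * 10 ^ ((n + 3 * e) / 2 + 5) := by
        rw [Finset.sum_const, Finset.card_range, smul_eq_mul]

end Pool.Agent.Helper15.SI
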